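import Pool.Agent.H466.HP.Stm3
import Pool.Agent.H466.HP.XDALL
import Pool.Agent.H870.HP.DM

/-!
# HP-DEXP (helper181 for helper466): the prime side is small on the cone outside an exponentially
small set (`dexp : S_MOM → S_DEXP`)
-/

set_option autoImplicit false

namespace Pool.Agent.H181.HP

open Complex MeasureTheory Set Filter Topology Metric
open Pool.Agent.H466.HP (wt Dp Kt S_MOM S_DEXP)
open Pool.Agent.H870.HP (dd kap kap_sum trunc gauss_le wt_norm exp_norm)
open Pool.Agent.H120.HP (Ej Ej_meas Ej_vol)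
open H370.A2 (lamC lamC_norm)
open ArithmeticFunction (vonMangoldt)
open scoped ENNReal

/-! ### sums over the integers -/

/-- `∑ Λ(n) n^{-1-y} ≤ 9 (1 + 1/y)` -/
theorem sum_lam {y : ℝ} (hy : 0 < y) (N : ℕ) :
    ∑ n ∈ Finset.Icc 1 N, vonMangoldt n / n * Real.exp (-(y * Real.log n)) ≤ 9 * (1 + 1 / y) := by
  classical
  set κ : ℕ → ℕ := fun n => ⌊Real.log n⌋₊ with hκ
  set K : ℕ := (Finset.Icc 1 N).sup κ + 1 with hK
  have hmaps : ∀ n ∈ Finset.Icc 1 N, κ n ∈ Finset.range K := by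
    intro n hn
    rw [Finset.mem_range, hK, Nat.lt_succ_iff]
    exact Finset.le_sup (f := κ) hn
  have hfib : ∀ k ∈ Finset.range K, ∑ n ∈ (Finset.Icc 1 N).filter (fun n => κ n = k),
      vonMangoldt n / n * Real.exp (-(y * Real.log n)) ≤ 9 * Real.exp (-y) ^ k := by
    intro k _
    have h1 : ∀ n ∈ (Finset.Icc 1 N).filter (fun n => κ n = k),
        vonMangoldt n / n * Real.exp (-(y * Real.log n)) ≤
          Real.exp (-y) ^ k * (vonMangoldt n / n) := by
      intro n hn
      rw [Finset.mem_filter, Finset.mem_Icc] at hn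
      obtain ⟨⟨h3, _⟩, h5⟩ := hn
      have h6 : (k : ℝ) ≤ Real.log n := by
        rw [← h5]
        exact Nat.floor_le (Real.log_natCast_nonneg n)
      have h7 : Real.exp (-(y * Real.log n)) ≤ Real.exp (-y) ^ k := by
        rw [← Real.exp_nat_mul]
        apply Real.exp_le_exp.2
        nlinarith
      have h8 : 0 ≤ vonMangoldt n / (n : ℝ) :=
        div_nonneg ArithmeticFunction.vonMangoldt_nonneg (Nat.cast_nonneg _)
      calc vonMangoldt n / n * Real.exp (-(y * Real.log n)) ≤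
          vonMangoldt n / n * Real.exp (-y) ^ k := by gcongr
        _ = _ := mul_comm _ _
    have h2 : ∑ n ∈ (Finset.Icc 1 N).filter (fun n => κ n = k), vonMangoldt n / (n : ℝ) ≤ 9 := by
      refine le_trans (Finset.sum_le_sum_of_subset_of_nonneg ?_ fun n _ _ =>
        div_nonneg ArithmeticFunction.vonMangoldt_nonneg (Nat.cast_nonneg _))
        ((Pool.Agent.TH850.UR.win (k + 1 / 2) (1 / 2) (by positivity) (by norm_num) N).trans
          (by norm_num))
      intro n hn
      rw [Finset.mem_filter] at hn ⊢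
      refine ⟨hn.1, ?_⟩
      have h3 : (k : ℝ) ≤ Real.log n := by
        rw [← hn.2]
        exact Nat.floor_le (Real.log_natCast_nonneg n)
      have h4 : Real.log n < k + 1 := by
        rw [← hn.2]
        exact Nat.lt_floor_add_one _
      rw [abs_le]
      constructor <;> linarith
    refine (Finset.sum_le_sum h1).trans ?_
    rw [← Finset.mul_sum, mul_comm]
    exact mul_le_mul_of_nonneg_right h2 (by positivity)
  rw [← Finset.sum_fiberwise_of_maps_to hmaps]
  refine (Finset.sum_le_sum hfib).trans ?_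
  rw [← Finset.mul_sum]
  apply mul_le_mul_of_nonneg_left _ (by norm_num)
  have he0 : 0 ≤ Real.exp (-y) := (Real.exp_pos _).le
  have he1 : Real.exp (-y) < 1 := by
    rw [Real.exp_lt_one_iff]
    linarith
  have h3 : ∑ i ∈ Finset.range K, Real.exp (-y) ^ i ≤ (1 - Real.exp (-y))⁻¹ := by
    rw [← tsum_geometric_of_lt_one he0 he1]
    exact (summable_geometric_of_lt_one he0 he1).sum_le_tsum _ fun i _ => by positivity
  refine h3.trans ?_
  rw [inv_le_comm₀ (by linarith) (by positivity)]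
  have h4 : Real.exp (-y) ≤ 1 / (1 + y) := by
    rw [Real.exp_neg, inv_eq_one_div]
    apply one_div_le_one_div_of_le (by positivity)
    linarith [Real.add_one_le_exp y]
  have h5 : (1 + 1 / y)⁻¹ = 1 - 1 / (1 + y) := by
    field_simp
    ring
  rw [h5]
  linarith

/-- the prime powers `p^j`, `j ≥ 2` -/
theorem sum_np {x : ℝ} (hx : 0 < x) (N : ℕ) :
    ∑ n ∈ (Finset.Icc 2 N).filter (fun n => ¬ n.Prime), vonMangoldt n * (Real.sqrt n)⁻¹ *
      Real.exp (-(x * Real.log n)) ≤ 36 * (1 + 1 / (2 * x)) := by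
  classical
  set f : ℕ → ℝ := fun n => vonMangoldt n * (Real.sqrt n)⁻¹ * Real.exp (-(x * Real.log n)) with hf
  have hf0 : ∀ n, 0 ≤ f n := fun n => mul_nonneg (mul_nonneg
    ArithmeticFunction.vonMangoldt_nonneg (by positivity)) (Real.exp_pos _).le
  set S : Finset ℕ := ((Finset.Icc 2 N).filter (fun n => ¬ n.Prime)).filter
    (fun n => vonMangoldt n ≠ 0) with hS
  have h1 : ∑ n ∈ (Finset.Icc 2 N).filter (fun n => ¬ n.Prime), f n = ∑ n ∈ S, f n := by
    rw [hS]
    symm
    refine Finset.sum_subset (Finset.filter_subset _ _) fun n hn hn' => ?_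
    have h2 : vonMangoldt n = 0 := by
      by_contra h
      exact hn' (Finset.mem_filter.2 ⟨hn, h⟩)
    rw [hf]
    simp only [h2, zero_mul]
  rw [h1]
  have hmaps : ∀ n ∈ S, n.minFac ∈ (Finset.Icc 1 N).filter Nat.Prime := by
    intro n hn
    rw [hS, Finset.mem_filter, Finset.mem_filter, Finset.mem_Icc] at hn
    obtain ⟨⟨⟨h2, h3⟩, -⟩, -⟩ := hn
    have h4 : n.minFac.Prime := Nat.minFac_prime (by omega)
    rw [Finset.mem_filter, Finset.mem_Icc]
    exact ⟨⟨h4.one_lt.le, (Nat.minFac_le (by omega)).trans h3⟩, h4⟩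
  rw [← Finset.sum_fiberwise_of_maps_to hmaps]
  have hfib : ∀ p ∈ (Finset.Icc 1 N).filter Nat.Prime,
      ∑ n ∈ S.filter (fun n => n.minFac = p), f n ≤
        4 * (vonMangoldt p / p * Real.exp (-(2 * x * Real.log p))) := by
    intro p hp
    have hpp : p.Prime := (Finset.mem_filter.1 hp).2
    have hp0 : (0 : ℝ) < p := by exact_mod_cast hpp.pos
    have hp2 : (2 : ℝ) ≤ p := by exact_mod_cast hpp.two_le
    have hinj : Function.Injective (fun j : ℕ => p ^ j) := Nat.pow_right_injective hpp.two_le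
    have hsub : S.filter (fun n => n.minFac = p) ⊆ (Finset.Ico 2 (N + 2)).image (fun j => p ^ j) := by
      intro n hn
      rw [Finset.mem_filter] at hn
      obtain ⟨hn, hnp⟩ := hn
      rw [hS, Finset.mem_filter, Finset.mem_filter, Finset.mem_Icc] at hn
      obtain ⟨⟨⟨h2, h3⟩, h4⟩, h5⟩ := hn
      rw [ArithmeticFunction.vonMangoldt_ne_zero_iff] at h5
      have h6 : ∃ j : ℕ, n = p ^ j := by
        obtain ⟨q, j, hq, hj, hqj⟩ := (isPrimePow_nat_iff n).1 h5
        have h7 : q = p := by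
          rw [← hnp, ← hqj, hq.pow_minFac hj.ne']
        exact ⟨j, by rw [← hqj, h7]⟩
      obtain ⟨j, rfl⟩ := h6
      rw [Finset.mem_image]
      refine ⟨j, ?_, rfl⟩
      rw [Finset.mem_Ico]
      constructor
      · by_contra hj
        have h7 : j = 0 ∨ j = 1 := by omega
        rcases h7 with rfl | rfl
        · simp at h2
        · apply h4
          rw [pow_one]
          exact hpp
      · have h8 : j < p ^ j := Nat.lt_pow_self hpp.one_lt
        omega
    refine (Finset.sum_le_sum_of_subset_of_nonneg hsub fun n _ _ => hf0 n).trans ?_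
    rw [Finset.sum_image fun a _ b _ h => hinj h]
    set r : ℝ := (Real.sqrt p)⁻¹ * Real.exp (-(x * Real.log p)) with hr
    have hr0 : 0 ≤ r := by positivity
    have hval : ∀ j ∈ Finset.Ico 2 (N + 2), f (p ^ j) = vonMangoldt p * r ^ j := by
      intro j hj
      rw [Finset.mem_Ico] at hj
      have e1 : Real.log ((p ^ j : ℕ) : ℝ) = j * Real.log p := by
        push_cast
        rw [Real.log_pow]
      have e2 : Real.sqrt ((p ^ j : ℕ) : ℝ) = Real.sqrt p ^ j := by
        push_cast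
        rw [Real.sqrt_eq_rpow, Real.sqrt_eq_rpow, ← Real.rpow_natCast, ← Real.rpow_natCast,
          ← Real.rpow_mul hp0.le, ← Real.rpow_mul hp0.le, mul_comm]
      rw [hf]
      simp only
      rw [e1, e2, ArithmeticFunction.vonMangoldt_apply_pow (by omega), hr, mul_pow,
        ← Real.exp_nat_mul, inv_pow, mul_assoc]
      congr 3
      ring
    rw [Finset.sum_congr rfl hval, ← Finset.mul_sum]
    have hr1 : r ≤ 3 / 4 := by
      have a1 : Real.exp (-(x * Real.log p)) ≤ 1 := by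
        rw [Real.exp_le_one_iff]
        have := Real.log_nonneg (by linarith : (1 : ℝ) ≤ p)
        have := mul_nonneg hx.le this
        linarith
      have a2 : (4 / 3 : ℝ) ≤ Real.sqrt p := by
        apply Real.le_sqrt_of_sq_le
        linarith
      have a3 : (Real.sqrt p)⁻¹ ≤ 3 / 4 := by
        rw [inv_le_comm₀ (by linarith) (by norm_num)]
        linarith
      calc r ≤ 3 / 4 * 1 := by
            rw [hr]
            exact mul_le_mul a3 a1 (Real.exp_pos _).le (by norm_num)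
        _ = 3 / 4 := by norm_num
    have hgeo : ∑ j ∈ Finset.Ico 2 (N + 2), r ^ j ≤ 4 * r ^ 2 := by
      have b1 : ∑ j ∈ Finset.Ico 2 (N + 2), r ^ j = r ^ 2 * ∑ j ∈ Finset.range N, r ^ j := by
        rw [Finset.sum_Ico_eq_sum_range, Finset.mul_sum]
        refine Finset.sum_congr (by simp) fun j _ => ?_
        rw [pow_add]
      have b2 : ∑ j ∈ Finset.range N, r ^ j ≤ 4 := by
        have b3 : ∑ j ∈ Finset.range N, r ^ j ≤ (1 - r)⁻¹ := by
          rw [← tsum_geometric_of_lt_one hr0 (by linarith)]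
          exact (summable_geometric_of_lt_one hr0 (by linarith)).sum_le_tsum _
            fun i _ => by positivity
        refine b3.trans ?_
        rw [inv_le_comm₀ (by linarith) (by norm_num)]
        linarith
      rw [b1, mul_comm]
      exact mul_le_mul_of_nonneg_right b2 (by positivity)
    have hr2 : r ^ 2 = (p : ℝ)⁻¹ * Real.exp (-(2 * x * Real.log p)) := by
      rw [hr, mul_pow, inv_pow, Real.sq_sqrt hp0.le, ← Real.exp_nat_mul]
      congr 2
      push_cast
      ring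
    calc vonMangoldt p * ∑ j ∈ Finset.Ico 2 (N + 2), r ^ j ≤ vonMangoldt p * (4 * r ^ 2) :=
          mul_le_mul_of_nonneg_left hgeo ArithmeticFunction.vonMangoldt_nonneg
      _ = _ := by
          rw [hr2]
          ring
  refine (Finset.sum_le_sum hfib).trans ?_
  rw [← Finset.mul_sum]
  have h2 := sum_lam (y := 2 * x) (by positivity) N
  have h3 : ∑ p ∈ (Finset.Icc 1 N).filter Nat.Prime,
      vonMangoldt p / p * Real.exp (-(2 * x * Real.log p)) ≤
      ∑ n ∈ Finset.Icc 1 N, vonMangoldt n / n * Real.exp (-(2 * x * Real.log n)) :=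
    Finset.sum_le_sum_of_subset_of_nonneg (Finset.filter_subset _ _) fun n _ _ =>
      mul_nonneg (div_nonneg ArithmeticFunction.vonMangoldt_nonneg (Nat.cast_nonneg _))
        (Real.exp_pos _).le
  linarith

/-! ### the coefficients -/

theorem dd_le {U x v : ℝ} (hU : 0 < U) (hx : 0 < x) (hx3 : x ≤ 3) (n : ℕ) :
    ‖dd U x v n‖ ≤ Real.sqrt (2 * Real.pi) * Real.exp (9 / 2) * Real.exp (-(x * Real.log n)) := by
  have h1 : ‖dd U x v n‖ ≤
      ∫ u in (0 : ℝ)..U, Real.exp (-(u * x)) * Real.exp (-(u - Real.log n) ^ 2 / 2) := by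
    unfold dd
    refine (intervalIntegral.norm_integral_le_integral_norm hU.le).trans ?_
    have hwc := Pool.Agent.H870.HP.wt_cont U
    refine intervalIntegral.integral_mono_on hU.le
      (Continuous.intervalIntegrable (by fun_prop) _ _)
      (Continuous.intervalIntegrable (by fun_prop) _ _) fun u hu => ?_
    rw [norm_mul, norm_mul, exp_norm, Complex.norm_real (Real.exp _),
      Real.norm_of_nonneg (Real.exp_pos _).le]
    have h2 := wt_norm hU hu.2
    have h3 : 0 ≤ Real.exp (-(u * x)) * Real.exp (-(u - Real.log n) ^ 2 / 2) := by positivity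
    calc ‖(wt U u : ℂ)‖ * Real.exp (-(u * x)) * Real.exp (-(u - Real.log n) ^ 2 / 2) =
        ‖(wt U u : ℂ)‖ * (Real.exp (-(u * x)) * Real.exp (-(u - Real.log n) ^ 2 / 2)) := by ring
      _ ≤ 1 * (Real.exp (-(u * x)) * Real.exp (-(u - Real.log n) ^ 2 / 2)) :=
          mul_le_mul_of_nonneg_right h2 h3
      _ = _ := one_mul _
  have h2 : ∫ u in (0 : ℝ)..U, Real.exp (-(u * x)) * Real.exp (-(u - Real.log n) ^ 2 / 2) =
      Real.exp (x ^ 2 / 2 - x * Real.log n) *
        ∫ u in (0 : ℝ)..U, Real.exp (-(u - (Real.log n - x)) ^ 2 / 2) := by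
    rw [← intervalIntegral.integral_const_mul]
    refine intervalIntegral.integral_congr fun u _ => ?_
    rw [← Real.exp_add, ← Real.exp_add]
    congr 1
    ring
  rw [h2] at h1
  have h3 := gauss_le hU (Real.log n - x)
  have h4 : Real.exp (x ^ 2 / 2 - x * Real.log n) ≤
      Real.exp (9 / 2) * Real.exp (-(x * Real.log n)) := by
    rw [← Real.exp_add]
    apply Real.exp_le_exp.2
    nlinarith
  calc ‖dd U x v n‖ ≤ _ := h1
    _ ≤ (Real.exp (9 / 2) * Real.exp (-(x * Real.log n))) * Real.sqrt (2 * Real.pi) :=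
        mul_le_mul h4 h3 (intervalIntegral.integral_nonneg hU.le fun u _ => by positivity)
          (by positivity)
    _ = _ := by ring

/-- the part of the prime powers -/
theorem np_bound : ∃ C : ℝ, 0 < C ∧ ∀ (N : ℕ) (U x v t : ℝ), 0 < U → 0 < x → x ≤ 3 →
    ‖∑ n ∈ (Finset.Icc 2 N).filter (fun n => ¬ n.Prime),
      kap U x v n * (n : ℂ) ^ (-(t : ℂ) * I)‖ ≤ C / x := by
  refine ⟨Real.sqrt (2 * Real.pi) * Real.exp (9 / 2) * 180, by positivity,
    fun N U x v t hU hx hx3 => ?_⟩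
  refine (norm_sum_le _ _).trans ?_
  have h1 : ∀ n ∈ (Finset.Icc 2 N).filter (fun n => ¬ n.Prime),
      ‖kap U x v n * (n : ℂ) ^ (-(t : ℂ) * I)‖ ≤ Real.sqrt (2 * Real.pi) * Real.exp (9 / 2) *
        (vonMangoldt n * (Real.sqrt n)⁻¹ * Real.exp (-(x * Real.log n))) := by
    intro n hn
    have hn2 : 2 ≤ n := (Finset.mem_Icc.1 (Finset.mem_filter.1 hn).1).1
    have e1 : ‖(n : ℂ) ^ (-(t : ℂ) * I)‖ = 1 := by
      rw [Pool.Agent.TH850.UV.DPM952.cpow_eq n hn2]
      have : (-((Real.log n : ℂ) * I) * (t : ℂ)) = ((-(Real.log n * t) : ℝ) : ℂ) * I := by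
        push_cast
        ring
      rw [this, Complex.norm_exp_ofReal_mul_I]
    rw [norm_mul, e1, mul_one]
    unfold kap
    rw [norm_mul, norm_mul, lamC_norm, norm_inv, Complex.norm_real,
      Real.norm_of_nonneg (Real.sqrt_nonneg _)]
    have h2 := dd_le (v := v) hU hx hx3 n
    have h3 : 0 ≤ vonMangoldt n * (Real.sqrt n)⁻¹ :=
      mul_nonneg ArithmeticFunction.vonMangoldt_nonneg (by positivity)
    calc vonMangoldt n * (Real.sqrt n)⁻¹ * ‖dd U x v n‖ ≤ vonMangoldt n * (Real.sqrt n)⁻¹ *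
        (Real.sqrt (2 * Real.pi) * Real.exp (9 / 2) * Real.exp (-(x * Real.log n))) :=
          mul_le_mul_of_nonneg_left h2 h3
      _ = _ := by ring
  refine (Finset.sum_le_sum h1).trans ?_
  rw [← Finset.mul_sum]
  have h2 := sum_np hx N
  have h3 : 36 * (1 + 1 / (2 * x)) ≤ 180 / x := by
    rw [le_div_iff₀ hx]
    have : 36 * (1 + 1 / (2 * x)) * x = 36 * x + 18 := by
      field_simp
      ring
    rw [this]
    linarith
  calc Real.sqrt (2 * Real.pi) * Real.exp (9 / 2) * _ ≤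
      Real.sqrt (2 * Real.pi) * Real.exp (9 / 2) * (180 / x) :=
        mul_le_mul_of_nonneg_left (h2.trans h3) (by positivity)
    _ = _ := by ring

/-- the truncation -/
theorem tr_bound : ∃ C : ℝ, 0 < C ∧ ∀ (U x v t : ℝ), 1 ≤ U → 0 < x →
    ‖Dp U (x + I * (t + v)) t - ∑ n ∈ Finset.Icc 2 ⌊Real.exp (9 * U)⌋₊,
      kap U x v n * (n : ℂ) ^ (-(t : ℂ) * I)‖ ≤ C := by
  have hζ0 : 0 ≤ ∑' n : ℕ, 1 / (n : ℝ) ^ 2 := tsum_nonneg fun n => by positivity
  refine ⟨2 * (∑' n : ℕ, 1 / (n : ℝ) ^ 2) + 1, by positivity, fun U x v t hU hx => ?_⟩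
  have hU0 : 0 < U := by linarith
  have h1 := trunc (t := t) (v := v) (X := ⌊Real.exp (9 * U)⌋₊) (D := 8 * U) hU0 hx
    (by positivity) (by
      rw [← Real.log_exp (U + 8 * U)]
      refine Real.log_le_log (Real.exp_pos _) ?_
      have : U + 8 * U = 9 * U := by ring
      rw [this]
      exact (Nat.lt_floor_add_one _).le)
  refine h1.trans ?_
  have h2 : Real.exp (4 + 2 * U) * Real.exp (-(8 * U) ^ 2 / 4) * U ≤ 1 := by
    have h3 : U ≤ Real.exp U := by linarith [Real.add_one_le_exp U]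
    calc Real.exp (4 + 2 * U) * Real.exp (-(8 * U) ^ 2 / 4) * U ≤
        Real.exp (4 + 2 * U) * Real.exp (-(8 * U) ^ 2 / 4) * Real.exp U := by gcongr
      _ = Real.exp (4 + 2 * U + -(8 * U) ^ 2 / 4 + U) := by
          rw [← Real.exp_add, ← Real.exp_add]
      _ ≤ 1 := by
          rw [Real.exp_le_one_iff]
          nlinarith
  calc 2 * (∑' n : ℕ, 1 / (n : ℝ) ^ 2) * (Real.exp (4 + 2 * U) * Real.exp (-(8 * U) ^ 2 / 4)) * U
      = 2 * (∑' n : ℕ, 1 / (n : ℝ) ^ 2) *
        (Real.exp (4 + 2 * U) * Real.exp (-(8 * U) ^ 2 / 4) * U) := by ring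
    _ ≤ 2 * (∑' n : ℕ, 1 / (n : ℝ) ^ 2) * 1 := by gcongr
    _ ≤ _ := by linarith

/-! ### the entire function -/

theorem lap_diff (U : ℝ) {g : ℝ → ℂ} (hgc : Continuous g) :
    Differentiable ℂ (fun z : ℂ => ∫ u in (0 : ℝ)..U, cexp (-(u * z)) * g u) := by
  intro z₀
  have key := intervalIntegral.hasDerivAt_integral_of_dominated_loc_of_deriv_le (μ := volume)
    (a := 0) (b := U) (F := fun (z : ℂ) (u : ℝ) => cexp (-(u * z)) * g u)
    (F' := fun (z : ℂ) (u : ℝ) => (-(u : ℂ) * cexp (-(u * z))) * g u) (x₀ := z₀)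
    (s := ball z₀ 1) (bound := fun u => |u| * Real.exp (|u| * (‖z₀‖ + 1)) * ‖g u‖)
    (ball_mem_nhds z₀ one_pos) ?_ ?_ ?_ ?_ ?_ ?_
  · exact key.2.differentiableAt
  · refine Filter.Eventually.of_forall fun z => ?_
    exact (by fun_prop : Continuous (fun u : ℝ => cexp (-(u * z)) * g u)).aestronglyMeasurable
  · exact (by fun_prop : Continuous (fun u : ℝ => cexp (-(u * z₀)) * g u)).intervalIntegrable _ _
  · exact (by fun_prop :
      Continuous (fun u : ℝ => (-(u : ℂ) * cexp (-(u * z₀))) * g u)).aestronglyMeasurable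
  · refine Filter.Eventually.of_forall fun u _ z hz => ?_
    rw [norm_mul, norm_mul, norm_neg, Complex.norm_real, Real.norm_eq_abs, Complex.norm_exp]
    have hz1 : ‖z‖ ≤ ‖z₀‖ + 1 := by
      have h1 : ‖z - z₀‖ < 1 := by rw [← dist_eq_norm]; exact hz
      have h2 := norm_add_le (z - z₀) z₀
      rw [sub_add_cancel] at h2
      linarith
    have h3 : (-((u : ℂ) * z)).re ≤ |u| * (‖z₀‖ + 1) := by
      refine (Complex.re_le_norm _).trans ?_
      rw [norm_neg, norm_mul, Complex.norm_real, Real.norm_eq_abs]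
      exact mul_le_mul_of_nonneg_left hz1 (abs_nonneg _)
    exact mul_le_mul_of_nonneg_right (mul_le_mul_of_nonneg_left (Real.exp_le_exp.2 h3)
      (abs_nonneg _)) (norm_nonneg _)
  · exact (by fun_prop : Continuous
      (fun u : ℝ => |u| * Real.exp (|u| * (‖z₀‖ + 1)) * ‖g u‖)).intervalIntegrable _ _
  · refine Filter.Eventually.of_forall fun u _ z _ => ?_
    have h1 : HasDerivAt (fun z : ℂ => cexp (-(u * z))) (cexp (-(u * z)) * (-(u * 1))) z :=
      (((hasDerivAt_id z).const_mul (u : ℂ)).neg).cexp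
    have h2 := h1.mul_const (g u)
    refine h2.congr_deriv ?_
    ring

/-- the coefficients as functions of the complex variable -/
noncomputable def kc (U : ℝ) (z : ℂ) (n : ℕ) : ℂ :=
  lamC n * (Real.sqrt n : ℂ)⁻¹ * ∫ u in (0 : ℝ)..U, cexp (-(u * z)) *
    ((wt U u : ℂ) * Real.exp (-(u - Real.log n) ^ 2 / 2))

theorem kc_eq (U x v : ℝ) (n : ℕ) : kc U (x + I * v) n = kap U x v n := by
  unfold kc kap dd
  congr 1
  refine intervalIntegral.integral_congr fun u _ => ?_
  ring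

theorem kc_diff (U : ℝ) (n : ℕ) : Differentiable ℂ (fun z => kc U z n) := by
  unfold kc
  refine (lap_diff U ?_).const_mul _
  have := Pool.Agent.H870.HP.wt_cont U
  fun_prop

/-- the prime side, restricted to the primes -/
noncomputable def hh (U : ℝ) (N : ℕ) (z : ℂ) (t : ℝ) : ℂ :=
  ∑ p ∈ (Finset.Icc 1 N).filter Nat.Prime, kc U z p * cexp (-(I * t * Real.log p))

theorem hh_diff (U : ℝ) (N : ℕ) (t : ℝ) : Differentiable ℂ (fun z => hh U N z t) := by
  unfold hh
  exact Differentiable.fun_sum fun p _ => (kc_diff U p).mul_const _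

theorem hh_joint (U : ℝ) (N : ℕ) : Continuous (fun p : ℂ × ℝ => hh U N p.1 p.2) := by
  unfold hh
  refine continuous_finsetSum _ fun p _ => ?_
  have h1 : Continuous (fun q : ℂ × ℝ => kc U q.1 p) :=
    (kc_diff U p).continuous.comp continuous_fst
  refine h1.mul ?_
  fun_prop

/-- the decomposition -/
theorem dec {U x v t : ℝ} {N : ℕ} :
    ∑ n ∈ Finset.Icc 2 N, kap U x v n * (n : ℂ) ^ (-(t : ℂ) * I) =
      hh U N (x + I * v) t + ∑ n ∈ (Finset.Icc 2 N).filter (fun n => ¬ n.Prime),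
        kap U x v n * (n : ℂ) ^ (-(t : ℂ) * I) := by
  classical
  rw [← Finset.sum_filter_add_sum_filter_not (Finset.Icc 2 N) Nat.Prime]
  congr 1
  unfold hh
  have h1 : (Finset.Icc 1 N).filter Nat.Prime = (Finset.Icc 2 N).filter Nat.Prime := by
    ext n
    rw [Finset.mem_filter, Finset.mem_filter, Finset.mem_Icc, Finset.mem_Icc]
    constructor
    · rintro ⟨⟨-, h2⟩, h3⟩
      exact ⟨⟨h3.two_le, h2⟩, h3⟩
    · rintro ⟨⟨h2, h4⟩, h3⟩
      exact ⟨⟨by omega, h4⟩, h3⟩
  rw [h1]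
  refine Finset.sum_congr rfl fun n hn => ?_
  have hn2 : 2 ≤ n := (Finset.mem_Icc.1 (Finset.mem_filter.1 hn).1).1
  rw [kc_eq, Pool.Agent.TH850.UV.DPM952.cpow_eq n hn2]
  congr 2
  ring

/-- the moment of `hh` -/
theorem mom (hM : S_MOM) : ∃ C : ℝ, 0 < C ∧ ∀ (N k : ℕ) (T U : ℝ) (z : ℂ), 1 ≤ k → 1 ≤ T →
    ((N : ℝ) + 1) ^ (4 * k) ≤ T → 0 < U → 0 < z.re → z.re ≤ 3 →
    ∫⁻ t in Icc T (2 * T), ENNReal.ofReal (‖hh U N z t‖ ^ (2 * k)) ≤
      ENNReal.ofReal (4 * T * (k.factorial : ℝ) * (C / z.re ^ 2) ^ k) := by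
  classical
  obtain ⟨C, hC, hK⟩ := kap_sum
  refine ⟨C, hC, fun N k T U z hk hT hN hU hz hz3 => ?_⟩
  have hzz : z = (z.re : ℂ) + I * (z.im : ℂ) := by
    conv_lhs => rw [← Complex.re_add_im z]
    ring
  have h1 := hM N k T (fun p => kap U z.re z.im p) hk hT hN
  have h2 : ∀ t : ℝ, hh U N z t = ∑ p ∈ (Finset.Icc 1 N).filter Nat.Prime,
      kap U z.re z.im p * cexp (-(I * t * Real.log p)) := by
    intro t
    unfold hh
    refine Finset.sum_congr rfl fun p _ => ?_
    rw [← kc_eq, ← hzz]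
  simp_rw [h2]
  refine h1.trans (ENNReal.ofReal_le_ofReal ?_)
  have h3 : ∑ p ∈ (Finset.Icc 1 N).filter Nat.Prime, ‖kap U z.re z.im p‖ ^ 2 ≤ C / z.re ^ 2 := by
    refine le_trans (Finset.sum_le_sum_of_subset_of_nonneg ?_ fun n _ _ => sq_nonneg _)
      (hK N U z.re z.im hU hz hz3)
    intro n hn
    rw [Finset.mem_filter, Finset.mem_Icc] at hn
    rw [Finset.mem_Icc]
    exact ⟨hn.2.two_le, hn.1.2⟩
  have h4 : 0 ≤ ∑ p ∈ (Finset.Icc 1 N).filter Nat.Prime, ‖kap U z.re z.im p‖ ^ 2 :=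
    Finset.sum_nonneg fun n _ => sq_nonneg _
  have h5 := pow_le_pow_left₀ h4 h3 k
  have h6 : 0 ≤ 4 * T * (k.factorial : ℝ) := by positivity
  exact mul_le_mul_of_nonneg_left h5 h6

/-! ### the measure estimate -/

/-- the power of the prime side -/
noncomputable def Hk (U : ℝ) (N k : ℕ) (p : ℂ × ℝ) : ℝ≥0∞ :=
  ENNReal.ofReal (‖hh U N p.1 p.2‖ ^ (2 * k))

theorem Hk_meas (U : ℝ) (N k : ℕ) : Measurable (Hk U N k) :=
  ENNReal.measurable_ofReal.comp ((hh_joint U N).norm.pow (2 * k)).measurable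

/-- one scale -/
theorem one_scale {M C T X Λ U : ℝ} {N k : ℕ} (hM : 1 ≤ M) (hX : 0 < X) (hX1 : X ≤ 1) (hC : 0 < C)
    (hT : 0 < T) (hΛ : 0 < Λ)
    (hmom : ∀ z : ℂ, 0 < z.re → z.re ≤ 3 →
      ∫⁻ t in Icc T (2 * T), ENNReal.ofReal (‖hh U N z t‖ ^ (2 * k)) ≤
      ENNReal.ofReal (4 * T * (k.factorial : ℝ) * (C / z.re ^ 2) ^ k)) :
    volume {t : ℝ | t ∈ Icc T (2 * T) ∧ ∃ z : ℂ, X ≤ z.re ∧ z.re ≤ 2 * X ∧
      |z.im| ≤ M * z.re ∧ Λ < ‖hh U N z t‖} ≤
      ENNReal.ofReal (400 * M ^ 2 * T * (k.factorial : ℝ) * (4 * C / (X * Λ) ^ 2) ^ k) := by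
  set Φ : ℝ → ℝ≥0∞ := fun t => ∫⁻ z in Ej M X, Hk U N k (z, t) with hΦ
  have hΦm : Measurable Φ := (Hk_meas U N k).lintegral_prod_left'
  -- the mean value inequality
  have h1 : ∀ t : ℝ, (∃ z : ℂ, X ≤ z.re ∧ z.re ≤ 2 * X ∧ |z.im| ≤ M * z.re ∧
      Λ < ‖hh U N z t‖) → ENNReal.ofReal (Real.pi * (X / 2) ^ 2 * Λ ^ (2 * k)) ≤ Φ t := by
    rintro t ⟨z, hz1, hz2, hz3, hz4⟩
    have hd : Differentiable ℂ (fun w : ℂ => hh U N w t ^ k) := (hh_diff U N t).pow k
    have h2 := Pool.Agent.H194.MV.area_mean_sq (w := z) (s := X / 2) (by linarith)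
      hd.differentiableOn
    have h3 : ENNReal.ofReal (Real.pi * (X / 2) ^ 2 * Λ ^ (2 * k)) ≤
        ENNReal.ofReal (Real.pi * (X / 2) ^ 2 * ‖hh U N z t ^ k‖ ^ 2) := by
      apply ENNReal.ofReal_le_ofReal
      rw [norm_pow, ← pow_mul, mul_comm k 2]
      gcongr
    refine h3.trans (h2.trans ?_)
    have h4 : ∫⁻ w in ball z (X / 2), ENNReal.ofReal (‖hh U N w t ^ k‖ ^ 2) =
        ∫⁻ w in ball z (X / 2), Hk U N k (w, t) := by
      refine lintegral_congr fun w => ?_
      unfold Hk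
      rw [norm_pow, ← pow_mul, mul_comm k 2]
    rw [h4]
    refine lintegral_mono_set ?_
    intro w hw
    rw [mem_ball, dist_eq_norm] at hw
    have a1 := Complex.abs_re_le_norm (w - z)
    rw [Complex.sub_re] at a1
    have a2 := abs_lt.1 (lt_of_le_of_lt a1 hw)
    have a3 : ‖z‖ ≤ 2 * X + 2 * M * X := by
      refine (Complex.norm_le_abs_re_add_abs_im _).trans ?_
      rw [abs_of_pos (by linarith : 0 < z.re)]
      have : M * z.re ≤ M * (2 * X) := mul_le_mul_of_nonneg_left hz2 (by linarith)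
      linarith
    have a4 : ‖w‖ ≤ ‖w - z‖ + ‖z‖ := by
      have := norm_add_le (w - z) z
      rwa [sub_add_cancel] at this
    have a5 : X ≤ M * X := by nlinarith
    refine ⟨by linarith [a2.1], by linarith [a2.2], ?_⟩
    linarith
  -- Tonelli
  have h2 : ∫⁻ t in Icc T (2 * T), Φ t ≤
      ENNReal.ofReal (100 * Real.pi * M ^ 2 * X ^ 2 * T * (k.factorial : ℝ) *
        (4 * C / X ^ 2) ^ k) := by
    have e1 : ∫⁻ t in Icc T (2 * T), Φ t =
        ∫⁻ z in Ej M X, ∫⁻ t in Icc T (2 * T), Hk U N k (z, t) := by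
      simp only [hΦ]
      exact lintegral_lintegral_swap
        (((Hk_meas U N k).comp measurable_swap).aemeasurable)
    rw [e1]
    have e2 : ∫⁻ z in Ej M X, ∫⁻ t in Icc T (2 * T), Hk U N k (z, t) ≤
        ∫⁻ _ in Ej M X, ENNReal.ofReal (4 * T * (k.factorial : ℝ) * (4 * C / X ^ 2) ^ k) := by
      refine setLIntegral_mono' (Ej_meas M X) fun z hz => ?_
      obtain ⟨z1, z2, z3⟩ := hz
      have h3 := hmom z (by linarith) (by linarith)
      refine le_trans h3 (ENNReal.ofReal_le_ofReal ?_)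
      have h6 : (X / 2) ^ 2 ≤ z.re ^ 2 := pow_le_pow_left₀ (by linarith) z1 2
      have h7 : C / z.re ^ 2 ≤ 4 * C / X ^ 2 := by
        calc C / z.re ^ 2 ≤ C / (X / 2) ^ 2 := by gcongr
          _ = 4 * C / X ^ 2 := by
            field_simp
            norm_num
      gcongr
    refine e2.trans ?_
    rw [setLIntegral_const]
    refine (mul_le_mul_right (Ej_vol M X hM hX) _).trans ?_
    rw [← ENNReal.ofReal_mul (by positivity)]
    refine ENNReal.ofReal_le_ofReal (le_of_eq ?_)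
    ring
  -- Markov
  have h3 := mul_meas_ge_le_lintegral (μ := volume.restrict (Icc T (2 * T))) hΦm
    (ENNReal.ofReal (Real.pi * (X / 2) ^ 2 * Λ ^ (2 * k)))
  have h4 : volume {t : ℝ | t ∈ Icc T (2 * T) ∧ ∃ z : ℂ, X ≤ z.re ∧ z.re ≤ 2 * X ∧
      |z.im| ≤ M * z.re ∧ Λ < ‖hh U N z t‖} ≤ volume.restrict (Icc T (2 * T))
        {t | ENNReal.ofReal (Real.pi * (X / 2) ^ 2 * Λ ^ (2 * k)) ≤ Φ t} := by
    rw [Measure.restrict_apply' measurableSet_Icc]
    refine measure_mono ?_
    rintro t ⟨ht, ht2⟩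
    exact ⟨h1 t ht2, ht⟩
  refine h4.trans ?_
  have hpos : 0 < Real.pi * (X / 2) ^ 2 * Λ ^ (2 * k) := by positivity
  have h5 : volume.restrict (Icc T (2 * T))
      {t | ENNReal.ofReal (Real.pi * (X / 2) ^ 2 * Λ ^ (2 * k)) ≤ Φ t} ≤
      ENNReal.ofReal (100 * Real.pi * M ^ 2 * X ^ 2 * T * (k.factorial : ℝ) *
        (4 * C / X ^ 2) ^ k) / ENNReal.ofReal (Real.pi * (X / 2) ^ 2 * Λ ^ (2 * k)) := by
    rw [ENNReal.le_div_iff_mul_le (Or.inl (ENNReal.ofReal_pos.2 hpos).ne')
      (Or.inl ENNReal.ofReal_ne_top), mul_comm]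
    exact h3.trans h2
  refine h5.trans ?_
  rw [← ENNReal.ofReal_div_of_pos hpos]
  refine ENNReal.ofReal_le_ofReal (le_of_eq ?_)
  have hpi := Real.pi_pos.ne'
  have e3 : (4 * C / (X * Λ) ^ 2) ^ k = (4 * C / X ^ 2) ^ k / Λ ^ (2 * k) := by
    rw [pow_mul, ← div_pow]
    congr 1
    field_simp
  rw [e3]
  field_simp
  ring

/-- all scales -/
theorem all_scales {M C T X Λ U : ℝ} {N k : ℕ} (hM : 1 ≤ M) (hX : 0 < X)
    (hC : 0 < C) (hT : 0 < T) (hΛ : 0 < Λ) (hk : 1 ≤ k)
    (hmom : ∀ z : ℂ, 0 < z.re → z.re ≤ 3 →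
      ∫⁻ t in Icc T (2 * T), ENNReal.ofReal (‖hh U N z t‖ ^ (2 * k)) ≤
      ENNReal.ofReal (4 * T * (k.factorial : ℝ) * (C / z.re ^ 2) ^ k))
    (hsm : k * (4 * C / (X * Λ) ^ 2) ≤ Real.exp (-1)) :
    volume {t : ℝ | t ∈ Icc T (2 * T) ∧ ∃ z : ℂ, X ≤ z.re ∧ z.re ≤ 1 ∧
      |z.im| ≤ M * z.re ∧ Λ < ‖hh U N z t‖} ≤
      ENNReal.ofReal (600 * M ^ 2 * T * Real.exp (-(k : ℝ))) := by
  set K : ℝ := 400 * M ^ 2 * T * Real.exp (-(k : ℝ)) with hK
  have hK0 : 0 ≤ K := by positivity
  set Sj : ℕ → Set ℝ := fun j => {t : ℝ | t ∈ Icc T (2 * T) ∧ (2 : ℝ) ^ j * X ≤ 1 ∧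
    ∃ z : ℂ, 2 ^ j * X ≤ z.re ∧ z.re ≤ 2 * (2 ^ j * X) ∧
      |z.im| ≤ M * z.re ∧ Λ < ‖hh U N z t‖} with hSj
  have h1 : ∀ j, volume (Sj j) ≤ ENNReal.ofReal (K * (1 / 4) ^ j) := by
    intro j
    by_cases hj : (2 : ℝ) ^ j * X ≤ 1
    · have h2 := one_scale (X := 2 ^ j * X) (k := k) hM (by positivity) hj hC hT hΛ hmom
      refine (measure_mono ?_).trans (h2.trans (ENNReal.ofReal_le_ofReal ?_))
      · rintro t ⟨ht, -, hz⟩
        exact ⟨ht, hz⟩
      · have e1 : (4 * C / (2 ^ j * X * Λ) ^ 2) = (4 * C / (X * Λ) ^ 2) * (1 / 4) ^ j := by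
          have e0 : ((2 : ℝ) ^ j) ^ 2 = 4 ^ j := by
            rw [← pow_mul, mul_comm j 2, pow_mul]
            norm_num
          rw [mul_assoc ((2 : ℝ) ^ j) X Λ, mul_pow ((2 : ℝ) ^ j), e0, one_div, inv_pow]
          field_simp
        have e2 : (k.factorial : ℝ) ≤ (k : ℝ) ^ k := by exact_mod_cast Nat.factorial_le_pow k
        have e3 : (1 / 4 : ℝ) ^ j ≤ 1 := pow_le_one₀ (by norm_num) (by norm_num)
        have e4 : ((1 / 4 : ℝ) ^ j) ^ k ≤ (1 / 4) ^ j :=
          pow_le_of_le_one (by positivity) e3 (by omega)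
        have e5 : (k : ℝ) ^ k * (4 * C / (X * Λ) ^ 2) ^ k ≤ Real.exp (-(k : ℝ)) := by
          rw [← mul_pow]
          refine (pow_le_pow_left₀ (by positivity) hsm k).trans (le_of_eq ?_)
          rw [← Real.exp_nat_mul]
          congr 1
          ring
        rw [e1, mul_pow (4 * C / (X * Λ) ^ 2)]
        calc 400 * M ^ 2 * T * (k.factorial : ℝ) *
              ((4 * C / (X * Λ) ^ 2) ^ k * ((1 / 4) ^ j) ^ k) ≤
            400 * M ^ 2 * T * (k : ℝ) ^ k *
              ((4 * C / (X * Λ) ^ 2) ^ k * (1 / 4) ^ j) := by gcongr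
          _ = 400 * M ^ 2 * T * ((k : ℝ) ^ k * (4 * C / (X * Λ) ^ 2) ^ k) * (1 / 4) ^ j := by
              ring
          _ ≤ 400 * M ^ 2 * T * Real.exp (-(k : ℝ)) * (1 / 4) ^ j := by gcongr
    · have : Sj j = ∅ := by
        ext t
        simp only [hSj, mem_ofPred_eq, mem_empty_iff_false, iff_false]
        rintro ⟨-, h3, -⟩
        exact hj h3
      rw [this, measure_empty]
      exact zero_le
  have h2 : {t : ℝ | t ∈ Icc T (2 * T) ∧ ∃ z : ℂ, X ≤ z.re ∧ z.re ≤ 1 ∧
      |z.im| ≤ M * z.re ∧ Λ < ‖hh U N z t‖} ⊆ ⋃ j, Sj j := by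
    rintro t ⟨ht, z, hz1, hz2, hz3, hz4⟩
    obtain ⟨j, hj1, hj2⟩ := exists_nat_pow_near (x := z.re / X) (y := (2 : ℝ))
      (by rw [le_div_iff₀ hX]; linarith) one_lt_two
    rw [le_div_iff₀ hX] at hj1
    rw [div_lt_iff₀ hX, pow_succ] at hj2
    refine mem_iUnion.2 ⟨j, ht, by linarith, z, hj1, by linarith, hz3, hz4⟩
  refine (measure_mono h2).trans ((measure_iUnion_le _).trans ?_)
  refine (ENNReal.tsum_le_tsum h1).trans ?_
  have hs : Summable (fun j : ℕ => K * (1 / 4 : ℝ) ^ j) :=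
    (summable_geometric_of_lt_one (by norm_num) (by norm_num)).mul_left K
  rw [← ENNReal.ofReal_tsum_of_nonneg (fun j => by positivity) hs, tsum_mul_left,
    tsum_geometric_of_lt_one (by norm_num) (by norm_num)]
  refine ENNReal.ofReal_le_ofReal ?_
  have : 0 < M ^ 2 * T * Real.exp (-(k : ℝ)) := by positivity
  rw [hK]
  nlinarith

/-- **JOB HP-DEXP** -/
theorem dexp (h : S_MOM) : S_DEXP := by
  intro M κ B hM hκ hB
  obtain ⟨Cs, hCs, hmom⟩ := mom h
  obtain ⟨C1, hC1, hnp⟩ := np_bound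
  obtain ⟨C2, hC2, htr⟩ := tr_bound
  set c : ℝ := 1 / (40 * B) with hc
  have hc0 : 0 < c := by positivity
  set C' : ℝ := 40 * B + 36 * Real.exp 1 * Cs / κ ^ 2 + 3 * C1 / κ + 3 * C2 / κ with hC'
  have hC'0 : 0 < C' := by positivity
  refine ⟨Real.exp (c * C') + 600 * M ^ 2 * Real.exp 1, c, 10, by positivity, hc0, le_rfl, ?_⟩
  intro T hT X hX hX1
  have hT0 : 0 < T := by linarith
  set L := Real.log T with hL
  have hL0 : 0 < L := Real.log_pos (by linarith)
  rcases le_or_gt (X * L) C' with hXL | hXL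
  · -- the trivial bound
    have h1 : volume {t : ℝ | t ∈ Icc T (2 * T) ∧ ∃ z ∈ Kt t X 1 M, κ * L < ‖Dp (B / X) z t‖} ≤
        volume (Icc T (2 * T)) := measure_mono fun t ht => ht.1
    refine h1.trans ?_
    rw [Real.volume_Icc]
    apply ENNReal.ofReal_le_ofReal
    have h2 : 1 ≤ Real.exp (c * C') * Real.exp (-(c * X * L)) := by
      rw [← Real.exp_add]
      apply Real.one_le_exp
      have := mul_le_mul_of_nonneg_left hXL hc0.le
      linarith
    calc 2 * T - T = T * 1 := by ring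
      _ ≤ T * (Real.exp (c * C') * Real.exp (-(c * X * L))) :=
          mul_le_mul_of_nonneg_left h2 hT0.le
      _ = Real.exp (c * C') * T * Real.exp (-(c * X * L)) := by ring
      _ ≤ _ := by
          gcongr
          have : 0 ≤ 600 * M ^ 2 * Real.exp 1 := by positivity
          linarith
  · set U : ℝ := B / X with hU
    have hU1 : 1 ≤ U := by
      rw [hU, le_div_iff₀ hX]
      linarith
    have hU0 : 0 < U := by linarith
    have p1 : 40 * B ≤ X * L := by
      have a1 : 0 ≤ 36 * Real.exp 1 * Cs / κ ^ 2 := by positivity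
      have a2 : 0 ≤ 3 * C1 / κ := by positivity
      have a3 : 0 ≤ 3 * C2 / κ := by positivity
      linarith
    have p2 : 36 * Real.exp 1 * Cs / κ ^ 2 ≤ X * L := by
      have a2 : 0 ≤ 3 * C1 / κ := by positivity
      have a3 : 0 ≤ 3 * C2 / κ := by positivity
      linarith
    have p3 : 3 * C1 / κ ≤ X * L := by
      have a1 : 0 ≤ 36 * Real.exp 1 * Cs / κ ^ 2 := by positivity
      have a3 : 0 ≤ 3 * C2 / κ := by positivity
      linarith
    have p4 : 3 * C2 / κ ≤ L := by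
      have a1 : 0 ≤ 36 * Real.exp 1 * Cs / κ ^ 2 := by positivity
      have a2 : 0 ≤ 3 * C1 / κ := by positivity
      have a3 : X * L ≤ 1 * L := mul_le_mul_of_nonneg_right hX1 hL0.le
      linarith
    set N : ℕ := ⌊Real.exp (9 * U)⌋₊ with hN
    set k : ℕ := ⌊X * L / (40 * B)⌋₊ with hk
    have hk1 : 1 ≤ k := by
      rw [hk, Nat.one_le_floor_iff, le_div_iff₀ (by positivity)]
      linarith
    have hkle : (k : ℝ) ≤ X * L / (40 * B) := Nat.floor_le (by positivity)
    have hklt : X * L / (40 * B) < k + 1 := Nat.lt_floor_add_one _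
    have hNT : ((N : ℝ) + 1) ^ (4 * k) ≤ T := by
      have a1 : (N : ℝ) + 1 ≤ Real.exp (10 * U) := by
        have a2 : (N : ℝ) ≤ Real.exp (9 * U) := Nat.floor_le (Real.exp_pos _).le
        have a3 : Real.exp (10 * U) = Real.exp (9 * U) * Real.exp U := by
          rw [← Real.exp_add]
          congr 1
          ring
        have a4 : 2 ≤ Real.exp U := by linarith [Real.add_one_le_exp U]
        have a5 : 1 ≤ Real.exp (9 * U) := Real.one_le_exp (by positivity)
        rw [a3]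
        nlinarith
      calc ((N : ℝ) + 1) ^ (4 * k) ≤ Real.exp (10 * U) ^ (4 * k) :=
            pow_le_pow_left₀ (by positivity) a1 _
        _ = Real.exp (40 * U * k) := by
            rw [← Real.exp_nat_mul]
            congr 1
            push_cast
            ring
        _ ≤ Real.exp L := by
            apply Real.exp_le_exp.2
            calc 40 * U * k ≤ 40 * U * (X * L / (40 * B)) := by gcongr
              _ = L := by
                rw [hU]
                field_simp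
        _ = T := Real.exp_log hT0
    have hmom' := fun (z : ℂ) (hz : 0 < z.re) (hz3 : z.re ≤ 3) =>
      hmom N k T U z hk1 (by linarith) hNT hU0 hz hz3
    have hsm : k * (4 * Cs / (X * (κ * L / 3)) ^ 2) ≤ Real.exp (-1) := by
      have a1 : (k : ℝ) ≤ X * L := by
        refine hkle.trans ?_
        apply div_le_self (by positivity)
        linarith
      have a2 : 0 ≤ 4 * Cs / (X * (κ * L / 3)) ^ 2 := by positivity
      refine (mul_le_mul_of_nonneg_right a1 a2).trans ?_
      have a3 : X * L * (4 * Cs / (X * (κ * L / 3)) ^ 2) = 36 * Cs / κ ^ 2 / (X * L) := by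
        field_simp
        ring
      rw [a3, div_le_iff₀ (by positivity), Real.exp_neg]
      have a4 : 36 * Cs / κ ^ 2 = (Real.exp 1)⁻¹ * (36 * Real.exp 1 * Cs / κ ^ 2) := by
        have := (Real.exp_pos 1).ne'
        field_simp
      rw [a4]
      exact mul_le_mul_of_nonneg_left p2 (by positivity)
    have hall := all_scales (U := U) (N := N) hM hX hCs hT0 (Λ := κ * L / 3) (by positivity)
      hk1 hmom' hsm
    have hsub : {t : ℝ | t ∈ Icc T (2 * T) ∧ ∃ z ∈ Kt t X 1 M, κ * L < ‖Dp U z t‖} ⊆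
        {t : ℝ | t ∈ Icc T (2 * T) ∧ ∃ z : ℂ, X ≤ z.re ∧ z.re ≤ 1 ∧
          |z.im| ≤ M * z.re ∧ κ * L / 3 < ‖hh U N z t‖} := by
      rintro t ⟨ht, z, ⟨hz1, hz2, hz3⟩, hz4⟩
      have hzx : 0 < z.re := by linarith
      set v : ℝ := z.im - t with hv
      have hz5 : ((z.re : ℂ) + I * ((t : ℂ) + (v : ℂ))) = z := by
        conv_rhs => rw [← Complex.re_add_im z]
        rw [hv]
        push_cast
        ring
      have b1 := htr U z.re v t hU1 hzx
      have b2 := hnp N U z.re v t hU0 hzx (by linarith)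
      rw [hz5, ← hN, dec] at b1
      refine ⟨ht, (z.re : ℂ) + I * (v : ℂ), ?_, ?_, ?_, ?_⟩
      · simp only [add_re, ofReal_re, mul_re, I_re, zero_mul, I_im, ofReal_im, mul_zero, sub_self,
          add_zero]
        exact hz1
      · simp only [add_re, ofReal_re, mul_re, I_re, zero_mul, I_im, ofReal_im, mul_zero, sub_self,
          add_zero]
        exact hz2
      · simp only [add_im, ofReal_im, mul_im, I_re, zero_mul, I_im, ofReal_re, one_mul,
          zero_add, add_re, mul_re, mul_zero, sub_self, add_zero]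
        exact hz3
      · set A := hh U N ((z.re : ℂ) + I * (v : ℂ)) t with hA
        set D := ∑ n ∈ (Finset.Icc 2 N).filter (fun n => ¬ n.Prime),
          kap U z.re v n * (n : ℂ) ^ (-(t : ℂ) * I) with hD
        have b3 : ‖Dp U z t‖ ≤ ‖Dp U z t - (A + D)‖ + ‖A‖ + ‖D‖ := by
          calc ‖Dp U z t‖ = ‖(Dp U z t - (A + D)) + A + D‖ := by
                congr 1
                ring
            _ ≤ _ := norm_add₃_le
        have b4 : C1 / z.re ≤ κ * L / 3 := by
          have c1 : C1 / z.re ≤ C1 / X := div_le_div_of_nonneg_left hC1.le hX hz1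
          refine c1.trans ?_
          rw [div_le_iff₀ hX]
          rw [div_le_iff₀ hκ] at p3
          linarith
        have b5 : C2 ≤ κ * L / 3 := by
          rw [div_le_iff₀ hκ] at p4
          linarith
        linarith
    refine (measure_mono hsub).trans (hall.trans (ENNReal.ofReal_le_ofReal ?_))
    have q1 : Real.exp (-(k : ℝ)) ≤ Real.exp 1 * Real.exp (-(c * X * L)) := by
      rw [← Real.exp_add]
      apply Real.exp_le_exp.2
      have : c * X * L = X * L / (40 * B) := by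
        rw [hc]
        ring
      rw [this]
      linarith
    calc 600 * M ^ 2 * T * Real.exp (-(k : ℝ)) ≤
        600 * M ^ 2 * T * (Real.exp 1 * Real.exp (-(c * X * L))) := by gcongr
      _ = (600 * M ^ 2 * Real.exp 1) * T * Real.exp (-(c * X * L)) := by ring
      _ ≤ _ := by
          gcongr
          have : 0 ≤ Real.exp (c * C') := by positivity
          linarith

end Pool.Agent.H181.HP
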